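import Pool.Agent.H192KB.Mixed

/-!
MP_1e3e9c_ag, Q1 (Kobayashi's conjecture), for the projective varieties birational to quotients of
products of a variety and curves.
-/

set_option autoImplicit false
set_option linter.overlappingInstances false

open FF IntermediateField Pool.Agent.W619.PQ Pool.Agent.W619.PL Pool.Agent.W619.TW
  Pool.Agent.W619.X Pool.Agent.W619.Y Pool.Agent.H192KB

namespace Pool.Agent.Results.MP_1e3e9c_ag.MixedQuotientHyperbolic

/-- Let `Y` be a projective variety of dimension `d` with function field `M` (for instance a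
point), `F i` (`i < n`) the function fields of curves `C i`, `L` the function field of
`Y × C 1 × ... × C n` (`hsup`), `G` a finite group of automorphisms of `L` which permutes the curves
through `σ`, and `X` a projective variety in `P ^ N`, smooth or not, birational to the quotient by
`G`, with the generic point `x`. Assume `MixedPos`, for instance that the fixed locus of each
`g ≠ 1` in `G` on the product of the curves is empty or of codimension at least `7`, or that it is
empty or of codimension at least `2` and the quotient of each curve by its stabilizer is irrational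
or has at least `5` branch points. Assume that every map from a rational or elliptic curve to `X` is
constant (`NoRatEllCurve`), for instance that `X` is Kobayashi hyperbolic. Then `κ (X) ≥ κ (Y) + n`;
if `Y` is a point or of general type, then `X` is of general type (`K` of a resolution is big). -/
theorem result {L : Type} [Field L] [Algebra ℂ L] (d n : ℕ)
    (hn : Algebra.trdeg ℂ L = (d + n : ℕ))
    (M : IntermediateField ℂ L) [Algebra.EssFiniteType ℂ M] (hM : Algebra.trdeg ℂ M = d)
    (F : Fin n → IntermediateField ℂ L) (hF : ∀ i, IsFF ℂ (F i))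
    (hsup : M ⊔ (⨆ i, F i) = ⊤)
    (G : Subgroup (L ≃ₐ[ℂ] L)) [Finite G] (σ : G →* Equiv.Perm (Fin n))
    (hσ : ∀ (g : G) i, ∀ z ∈ F i, (g : L ≃ₐ[ℂ] L) z ∈ F (σ g i))
    (h : MixedPos G σ F) {N : ℕ} (x : Fin (N + 1) → fixedField G)
    (hx : IsGeneric ℂ x) (hno : NoRatEllCurve ℂ x) :
    (∀ i, (¬ ∃ t : F i, ℂ⟮t⟯ = ⊤) ∧ ¬ IsElliptic (F i)) ∧
    (∀ a, KodTr ℂ M d a → KodTr ℂ (fixedField G) (d + n) (a + n) ∧
      KodGe ℂ (fixedField G) (d + n) (fun _ => False) (a + n)) ∧
    (d = 0 ∨ KodTr ℂ M d d → KodTr ℂ (fixedField G) (d + n) (d + n) ∧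
      KodGe ℂ (fixedField G) (d + n) (fun _ => False) (d + n)) := by
  refine ⟨curves_of_hyp M F hM hn hsup G x hx hno,
    main d n hn M hM F hsup G σ hσ h x hx hno, fun hd => ?_⟩
  rcases hd with rfl | hd
  · exact main 0 n hn M hM F hsup G σ hσ h x hx hno 0 kodTr_zero
  · exact main d n hn M hM F hsup G σ hσ h x hx hno d hd

end Pool.Agent.Results.MP_1e3e9c_ag.MixedQuotientHyperbolic
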